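import Mathlib

/-! Definitions and task statements for MP_ab10b5_ag (BCM algebras and approximations mod p). -/

namespace Pool.Agent.H408BCM

open MvPolynomial

/-- `k[x,y]`. -/
abbrev A (k : Type) [Field k] : Type := MvPolynomial (Fin 2) k

/-- the maximal ideal `(x,y)` of `k[x,y]`, as the kernel of evaluation at the origin. -/
noncomputable abbrev mA (k : Type) [Field k] : Ideal (A k) :=
  RingHom.ker (MvPolynomial.constantCoeff : MvPolynomial (Fin 2) k →+* k)

instance (k : Type) [Field k] : (mA k).IsPrime := RingHom.ker_isPrime _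

/-- `R(k) = k[x,y]_{(x,y)}`. -/
abbrev R (k : Type) [Field k] : Type := Localization.AtPrime (mA k)

/-- The elements `x`, `y` of `R(k)`. -/
noncomputable abbrev rx (k : Type) [Field k] (i : Fin 2) : R k := algebraMap (A k) (R k) (X i)

/-- `rs` is a system of parameters of the local ring `R`: it generates an ideal with radical the
maximal ideal, and its length is minimal with this property. -/
def IsSOP (R : Type) [CommRing R] [IsLocalRing R] (rs : List R) : Prop :=
  (Ideal.ofList rs).radical = IsLocalRing.maximalIdeal R ∧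
    ∀ rs' : List R, (Ideal.ofList rs').radical = IsLocalRing.maximalIdeal R →
      rs.length ≤ rs'.length

/-- `B` is a (balanced) big Cohen-Macaulay `R`-algebra: every system of parameters of `R` is a
regular sequence on `B`. -/
def IsBCM (R : Type) [CommRing R] [IsLocalRing R] (B : Type) [CommRing B] [Algebra R B] : Prop :=
  ∀ rs : List R, IsSOP R rs → RingTheory.Sequence.IsRegular B rs

/-- Task N: the obstruction in characteristic `p = 7k+2` (Brenner-Katzman computation). -/
def TaskN : Prop := ∀ (k p : ℕ), p.Prime → p = 7 * k + 2 → ∀ (B : Type) [CommRing B] [CharP B p]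
    (x y z a b c : B), z ^ 7 = x ^ 7 + y ^ 7 →
    x ^ 3 * y ^ 3 = a * x ^ 4 + b * y ^ 4 + c * z ^ 4 →
    ∃ u v : B, x ^ (4 * p - 1) * y ^ (4 * p - 1) = u * x ^ (4 * p) + v * y ^ (4 * p)

/-- Task P: membership for `p = 7k+3`. -/
def TaskP : Prop := ∀ (k p : ℕ), p.Prime → p = 7 * k + 3 → ∀ (B : Type) [CommRing B] [CharP B p]
    (x y : B), ∃ u v w : B,
    x ^ (3 * k + 1) * y ^ (3 * k + 1) =
      u * x ^ (4 * k + 2) + v * y ^ (4 * k + 2) + w * (x + y) ^ (4 * k + 2)

/-- Task U: `ℂ` maps to the ultraproduct of the algebraic closures of `F_p`, `p` in an infinite set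
of primes. -/
def TaskU : Prop := ∀ (P : Set ℕ), P.Infinite → (∀ p ∈ P, p.Prime) → ∀ (𝒱 : Ultrafilter P),
    (𝒱 : Filter P) ≤ Filter.cofinite →
    ∀ (k : P → Type) [∀ i, Field (k i)] [∀ i, IsAlgClosed (k i)] [∀ i, CharP (k i) (i : ℕ)],
    (∀ i, Countable (k i)) →
    ∀ (J : Ideal (∀ i, k i)), (∀ a : (∀ i, k i), a ∈ J ↔ ∀ᶠ i in (𝒱 : Filter P), a i = 0) →
    Nonempty (ℂ →+* ((∀ i, k i) ⧸ J))

/-- Task S: systems of parameters of `R(k)`. -/
def TaskS : Prop := ∀ (k : Type) [Field k], IsSOP (R k) [rx k 0, rx k 1] ∧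
    ∀ rs : List (R k), IsSOP (R k) rs → ∃ f g : R k, rs = [f, g] ∧ f ≠ 0 ∧
      (∃ α β : R k, ∃ N : ℕ, α * f + β * g = rx k 0 ^ N) ∧
      (∃ α β : R k, ∃ N : ℕ, α * f + β * g = rx k 1 ^ N) ∧
      f ∈ Ideal.span {rx k 0, rx k 1} ∧ g ∈ Ideal.span {rx k 0, rx k 1}

/-- Task C: regular sequences of length two on an algebra in elementary terms. -/
def TaskC : Prop := ∀ (R B : Type) [CommRing R] [CommRing B] [Algebra R B] (f g : R),
    RingTheory.Sequence.IsRegular B [f, g] ↔
      ((∀ b : B, f • b = 0 → b = 0) ∧ (∀ b c : B, g • b = f • c → ∃ d : B, b = f • d) ∧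
        ¬ ∃ b c : B, (1 : B) = f • b + g • c)

/-- Elementary package: `B` is a torsion free `R`-module (algebra) and `x, y` is a regular sequence
on `B`, in elementary terms. -/
def Good (R B : Type) [CommRing R] [CommRing B] [Algebra R B] (x y : R) : Prop :=
  (∀ (f : R) (b : B), f ≠ 0 → f • b = 0 → b = 0) ∧
  (∀ b c : B, y • b = x • c → ∃ d : B, b = x • d) ∧
  ¬ ∃ b c : B, (1 : B) = x • b + y • c

/-- Task T: a good algebra over `R(k)` is big Cohen-Macaulay (uses tasks S and C). -/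
def TaskT : Prop := TaskS → TaskC → ∀ (k : Type) [Field k] (B : Type) [CommRing B] [Algebra (R k) B],
    Good (R k) B (rx k 0) (rx k 1) → IsBCM (R k) B

/-- Task L: localization of a good `k[x,y]`-algebra. -/
def TaskL : Prop := ∀ (k : Type) [Field k] (B : Type) [CommRing B] [Algebra (A k) B],
    Good (A k) B (X 0) (X 1) →
    ∃ (B' : Type) (_ : CommRing B') (_ : Algebra (R k) B') (φ : B →+* B'),
      (∀ f : A k, φ (algebraMap (A k) B f) = algebraMap (R k) B' (algebraMap (A k) (R k) f)) ∧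
      Good (R k) B' (rx k 0) (rx k 1)

/-- Task D: the ring `k[x,y,z]/(z^7 - x^7 - y^7)`. -/
def TaskD : Prop := ∀ (k : Type) [Field k] (p : ℕ), 0 < p →
    ∃ (B : Type) (_ : CommRing B) (_ : Algebra (A k) B) (z : B),
      z ^ 7 = algebraMap (A k) B (X 0 ^ 7 + X 1 ^ 7) ∧
      Good (A k) B (X 0 ^ p) (X 1 ^ p)

/-- Task M: the reduced product construction. -/
def TaskM : Prop := TaskP → TaskU → TaskD →
    ∃ (B : Type) (_ : CommRing B) (_ : Algebra (A ℂ) B), Good (A ℂ) B (X 0) (X 1) ∧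
      ∃ z a b c : B, z ^ 7 = algebraMap (A ℂ) B (X 0 ^ 7 + X 1 ^ 7) ∧
        algebraMap (A ℂ) B (X 0 ^ 3 * X 1 ^ 3) =
          a * algebraMap (A ℂ) B (X 0 ^ 4) + b * algebraMap (A ℂ) B (X 1 ^ 4) + c * z ^ 4

end Pool.Agent.H408BCM
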