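import Pool.Agent.Helper46.L.H408BCM.Stmts

/-! Task P: membership for `p = 7k+3`. -/

set_option autoImplicit false

namespace Pool.Agent.H408BCM.TPG

open Polynomial

/-- injectivity of the linear system -/
lemma inj (k p : ℕ) [hp : Fact p.Prime] (hpk : 6 * k + 2 < p) (w : (ZMod p)[X])
    (hw : w.natDegree ≤ 2 * k)
    (h : ∀ j, 2 * k + 1 ≤ j → j ≤ 4 * k + 1 → (w * (1 + X) ^ (4 * k + 2)).coeff j = 0) :
    w = 0 := by
  set n := 4 * k + 2 with hn
  set c : (ZMod p)[X] := w * (1 + X) ^ n with hc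
  have h1X : (1 + X : (ZMod p)[X]).natDegree = 1 := by
    rw [add_comm]
    exact natDegree_X_add_C (1 : ZMod p)
  have h1X0 : (1 + X : (ZMod p)[X]) ≠ 0 := by
    intro h0
    rw [h0] at h1X
    simp at h1X
  have hcdeg : c.natDegree ≤ 6 * k + 2 := by
    refine natDegree_mul_le.trans ?_
    rw [natDegree_pow, h1X]
    omega
  set u := c %ₘ (X ^ n : (ZMod p)[X]) with hu
  set v := c /ₘ (X ^ n : (ZMod p)[X]) with hv
  have hmon : (X ^ n : (ZMod p)[X]).Monic := monic_X_pow n
  have huv : u + X ^ n * v = c := modByMonic_add_div c (X ^ n)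
  have hud : u.natDegree ≤ 2 * k := by
    rw [natDegree_le_iff_coeff_eq_zero]
    intro N hN
    by_cases hNn : N < n
    · have h1 : c.coeff N = u.coeff N := by
        rw [← huv, coeff_add, coeff_X_pow_mul', if_neg (by omega), add_zero]
      rw [← h1]
      exact h N (by omega) (by omega)
    · apply coeff_eq_zero_of_degree_lt
      have h1 : u.degree < (X ^ n : (ZMod p)[X]).degree := degree_modByMonic_lt _ hmon
      rw [degree_X_pow] at h1
      exact h1.trans_le (by exact_mod_cast (not_lt.1 hNn))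
  have hBdeg : (X ^ n * v).natDegree ≤ 6 * k + 2 := by
    have h1 : X ^ n * v = c - u := by rw [← huv]; ring
    rw [h1]
    exact (natDegree_sub_le _ _).trans (max_le hcdeg (by omega))
  have hcop : IsCoprime (X : (ZMod p)[X]) (1 + X) := ⟨-1, 1, by ring⟩
  have hW : wronskian u (X ^ n * v) = 0 := by
    by_contra hne
    have h1 := natDegree_wronskian_lt_add hne
    have h2 : (X : (ZMod p)[X]) ^ (n - 1) ∣ wronskian u (X ^ n * v) := by
      unfold wronskian
      refine dvd_sub (Dvd.dvd.mul_left ?_ _) (Dvd.dvd.mul_left ?_ _)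
      · exact pow_sub_one_dvd_derivative_of_pow_dvd (Dvd.intro _ rfl)
      · exact (pow_dvd_pow _ (by omega)).trans (Dvd.intro _ rfl)
    have h3 : (1 + X : (ZMod p)[X]) ^ (n - 1) ∣ wronskian u (X ^ n * v) := by
      have h4 : wronskian u (X ^ n * v) = wronskian u c := by
        rw [← huv, wronskian_add_right, wronskian_self_eq_zero, zero_add]
      rw [h4]
      unfold wronskian
      refine dvd_sub (Dvd.dvd.mul_left ?_ _) (Dvd.dvd.mul_left ?_ _)
      · exact pow_sub_one_dvd_derivative_of_pow_dvd (Dvd.intro_left _ rfl)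
      · exact (pow_dvd_pow _ (by omega)).trans (Dvd.intro_left _ rfl)
    have h5 := (hcop.pow (m := n - 1) (n := n - 1)).mul_dvd h2 h3
    have h6 := natDegree_le_of_dvd h5 hne
    rw [natDegree_mul (pow_ne_zero _ X_ne_zero) (pow_ne_zero _ h1X0), natDegree_pow, natDegree_pow,
      h1X, natDegree_X] at h6
    omega
  have huv0 : u = 0 ∨ v = 0 := by
    by_contra hcon
    push Not at hcon
    obtain ⟨hu0, hv0⟩ := hcon
    obtain ⟨a, U, hU, hua⟩ := WfDvdMonoid.max_power_factor hu0 (irreducible_X (R := ZMod p))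
    obtain ⟨b, V, hV, hvb⟩ := WfDvdMonoid.max_power_factor hv0 (irreducible_X (R := ZMod p))
    have hU0 : U.coeff 0 ≠ 0 := by rwa [Ne, ← X_dvd_iff]
    have hV0 : V.coeff 0 ≠ 0 := by rwa [Ne, ← X_dvd_iff]
    have hUne : U ≠ 0 := by rintro rfl; simp at hU0
    have hVne : V ≠ 0 := by rintro rfl; simp at hV0
    have ha : a ≤ 2 * k := by
      rw [hua, natDegree_mul (pow_ne_zero _ X_ne_zero) hUne, natDegree_pow, natDegree_X] at hud
      omega
    have hb : n + b ≤ 6 * k + 2 := by
      rw [hvb, ← mul_assoc, ← pow_add, natDegree_mul (pow_ne_zero _ X_ne_zero) hVne, natDegree_pow,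
        natDegree_X] at hBdeg
      omega
    have key : ∀ (e : ℕ) (Q : (ZMod p)[X]), X * derivative (X ^ e * Q) =
        X ^ e * (C (e : ZMod p) * Q + X * derivative Q) := by
      intro e Q
      rw [derivative_mul, derivative_X_pow]
      rcases e with _ | e
      · simp
      · simp only [Nat.add_sub_cancel, Nat.cast_add, Nat.cast_one]
        ring
    have h1 : X * wronskian u (X ^ n * v) = 0 := by rw [hW, mul_zero]
    have h2 : X ^ n * v = X ^ (n + b) * V := by rw [hvb, pow_add]; ring
    rw [h2, hua] at h1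
    unfold wronskian at h1
    have h3 : X * (X ^ a * U * derivative (X ^ (n + b) * V) -
        derivative (X ^ a * U) * (X ^ (n + b) * V)) =
        X ^ (a + (n + b)) * (U * (C ((n + b : ℕ) : ZMod p) * V + X * derivative V) -
          (C (a : ZMod p) * U + X * derivative U) * V) := by
      have e1 := key (n + b) V
      have e2 := key a U
      calc X * (X ^ a * U * derivative (X ^ (n + b) * V) -
        derivative (X ^ a * U) * (X ^ (n + b) * V))
          = X ^ a * U * (X * derivative (X ^ (n + b) * V)) -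
            (X * derivative (X ^ a * U)) * (X ^ (n + b) * V) := by ring
        _ = _ := by rw [e1, e2, pow_add]; ring
    rw [h3, mul_eq_zero] at h1
    rcases h1 with h1 | h1
    · exact pow_ne_zero _ X_ne_zero h1
    · have h4 := congrArg (fun q => coeff q 0) h1
      simp only [coeff_sub, mul_coeff_zero, coeff_add, coeff_C_zero, coeff_X_zero, zero_mul,
        add_zero, coeff_zero] at h4
      have h5 : ((n + b - a : ℕ) : ZMod p) * (U.coeff 0 * V.coeff 0) = 0 := by
        rw [Nat.cast_sub (by omega)]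
        rw [← h4]
        ring
      rw [mul_eq_zero] at h5
      rcases h5 with h5 | h5
      · rw [ZMod.natCast_eq_zero_iff] at h5
        have := Nat.le_of_dvd (by omega) h5
        omega
      · exact mul_ne_zero hU0 hV0 h5
  rcases huv0 with h0 | h0
  · rw [h0, zero_add] at huv
    have h1 : (X ^ n : (ZMod p)[X]) ∣ w * (1 + X) ^ n := by rw [← hc, ← huv]; exact Dvd.intro _ rfl
    have h2 := (hcop.pow (m := n) (n := n)).dvd_of_dvd_mul_right h1
    exact eq_zero_of_dvd_of_natDegree_lt h2 (by rw [natDegree_X_pow]; omega)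
  · rw [h0, mul_zero, add_zero] at huv
    by_contra hne
    have h1 : c.natDegree = w.natDegree + n := by
      rw [hc, natDegree_mul hne (pow_ne_zero _ h1X0), natDegree_pow, h1X, mul_one]
    rw [huv] at hud
    omega

/-- the polynomial with given coefficients -/
noncomputable def Pw (F : Type) [Field F] (m : ℕ) : (Fin m → F) →ₗ[F] F[X] where
  toFun w := ∑ i : Fin m, monomial (i : ℕ) (w i)
  map_add' a b := by simp [Finset.sum_add_distrib]
  map_smul' c a := by simp [Finset.smul_sum, smul_monomial]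

lemma Pw_deg (F : Type) [Field F] (m : ℕ) (w : Fin (m + 1) → F) :
    (Pw F (m + 1) w).natDegree ≤ m := by
  change (∑ i : Fin (m + 1), monomial (i : ℕ) (w i)).natDegree ≤ m
  refine natDegree_sum_le_of_forall_le _ (fun i : Fin (m + 1) => monomial (i : ℕ) (w i))
    fun i _ => ?_
  have h : (monomial (i : ℕ) (w i)).natDegree ≤ (i : ℕ) := natDegree_monomial_le (w i)
  exact h.trans (by omega)

lemma Pw_inj (F : Type) [Field F] (m : ℕ) (w : Fin m → F) (h : Pw F m w = 0) : w = 0 := by
  funext i
  have h1 := congrArg (fun q : F[X] => coeff q (i : ℕ)) h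
  simp only [Pw, LinearMap.coe_mk, AddHom.coe_mk, finsetSum_coeff, coeff_monomial, coeff_zero] at h1
  rw [Finset.sum_eq_single i] at h1
  · simpa using h1
  · intro j _ hj
    rw [if_neg]
    intro h2
    exact hj (Fin.ext h2)
  · simp

/-- existence of the multiplier -/
lemma exists_w (k p : ℕ) [hp : Fact p.Prime] (hpk : 6 * k + 2 < p) :
    ∃ w : (ZMod p)[X], w.natDegree ≤ 2 * k ∧ ∀ j, 2 * k + 1 ≤ j → j ≤ 4 * k + 1 →
      (w * (1 + X) ^ (4 * k + 2)).coeff j = if j = 3 * k + 1 then 1 else 0 := by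
  let L : (Fin (2 * k + 1) → ZMod p) →ₗ[ZMod p] (Fin (2 * k + 1) → ZMod p) :=
    { toFun := fun w j => (Pw (ZMod p) (2 * k + 1) w * (1 + X) ^ (4 * k + 2)).coeff (2 * k + 1 + j)
      map_add' := fun a b => by
        funext j
        simp [add_mul]
      map_smul' := fun c a => by
        funext j
        simp }
  have hinj : Function.Injective L := by
    rw [← LinearMap.ker_eq_bot, LinearMap.ker_eq_bot']
    intro w hw
    apply Pw_inj
    apply inj k p hpk _ (Pw_deg _ _ _)
    intro j hj1 hj2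
    have h1 := congrFun hw ⟨j - (2 * k + 1), by omega⟩
    have h2 : 2 * k + 1 + (j - (2 * k + 1)) = j := by omega
    simp only [L, LinearMap.coe_mk, AddHom.coe_mk, h2, Pi.zero_apply] at h1
    exact h1
  obtain ⟨w, hw⟩ := (LinearMap.injective_iff_surjective.1 hinj) (Pi.single ⟨k, by omega⟩ 1)
  refine ⟨Pw (ZMod p) (2 * k + 1) w, Pw_deg _ _ _, fun j hj1 hj2 => ?_⟩
  have h1 := congrFun hw ⟨j - (2 * k + 1), by omega⟩
  have h2 : 2 * k + 1 + (j - (2 * k + 1)) = j := by omega
  simp only [L, LinearMap.coe_mk, AddHom.coe_mk, h2] at h1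
  rw [h1, Pi.single_apply]
  congr 1
  rw [Fin.ext_iff]
  simp only
  rw [eq_iff_iff]
  omega

theorem taskPG : ∀ (k p : ℕ), p.Prime → 6 * k + 2 < p → ∀ (B : Type) [CommRing B] [CharP B p]
    (x y : B), ∃ u v w : B,
    x ^ (3 * k + 1) * y ^ (3 * k + 1) =
      u * x ^ (4 * k + 2) + v * y ^ (4 * k + 2) + w * (x + y) ^ (4 * k + 2) := by
  intro k p hp hpk B _ _ x y
  have : Fact p.Prime := ⟨hp⟩
  obtain ⟨w, hwd, hw⟩ := exists_w k p hpk
  set n := 4 * k + 2 with hn
  set q : (ZMod p)[X] := w * (1 + X) ^ n with hq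
  have h1X : (1 + X : (ZMod p)[X]).natDegree = 1 := by
    rw [add_comm]
    exact natDegree_X_add_C (1 : ZMod p)
  let φ : ZMod p →+* B := ZMod.castHom (dvd_refl p) B
  let ψ : MvPolynomial (Fin 2) (ZMod p) →+* B := MvPolynomial.eval₂Hom φ ![x, y]
  have hom : ∀ (r : (ZMod p)[X]) (m : ℕ), ψ (r.homogenize m) =
      ∑ ab ∈ Finset.HasAntidiagonal.antidiagonal m, φ (r.coeff ab.1) * (x ^ ab.1 * y ^ ab.2) := by
    intro r m
    unfold homogenize
    rw [map_sum]
    refine Finset.sum_congr rfl fun ab _ => ?_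
    simp only [ψ, MvPolynomial.coe_eval₂Hom, MvPolynomial.eval₂_monomial]
    congr 1
    rw [Finsupp.prod_fintype _ _ (by simp)]
    simp [Fin.prod_univ_two]
  have hpow : ∀ m : ℕ, ψ (((1 + X : (ZMod p)[X]) ^ m).homogenize m) = (x + y) ^ m := by
    intro m
    induction m with
    | zero => simp [homogenize_one]
    | succ m ih =>
      rw [pow_succ, homogenize_mul _ _ (by rw [natDegree_pow, h1X, mul_one]) h1X.le, map_mul, ih,
        pow_succ]
      congr 1
      rw [homogenize_add, homogenize_one, homogenize_X one_ne_zero]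
      simp [ψ, add_comm]
  have h1 : ψ (q.homogenize (2 * k + n)) = ψ (w.homogenize (2 * k)) * (x + y) ^ n := by
    rw [hq, homogenize_mul _ _ hwd (by rw [natDegree_pow, h1X, mul_one]), map_mul, hpow]
  rw [hom] at h1
  set I : Ideal B := Ideal.span {x ^ n, y ^ n} with hI
  have hxI : ∀ a b, n ≤ a → φ (q.coeff a) * (x ^ a * y ^ b) ∈ I := by
    intro a b hab
    refine I.mul_mem_left _ (I.mul_mem_right _ ?_)
    obtain ⟨c, rfl⟩ := Nat.exists_eq_add_of_le hab
    rw [pow_add]
    exact I.mul_mem_right _ (Ideal.subset_span (by simp))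
  have hyI : ∀ a b, n ≤ b → φ (q.coeff a) * (x ^ a * y ^ b) ∈ I := by
    intro a b hab
    refine I.mul_mem_left _ (I.mul_mem_left _ ?_)
    obtain ⟨c, rfl⟩ := Nat.exists_eq_add_of_le hab
    rw [pow_add]
    exact I.mul_mem_right _ (Ideal.subset_span (by simp))
  have hmem : (3 * k + 1, 3 * k + 1) ∈ Finset.HasAntidiagonal.antidiagonal (2 * k + n) := by
    rw [Finset.HasAntidiagonal.mem_antidiagonal]
    omega
  rw [← Finset.add_sum_erase _ _ hmem] at h1
  have hrest : ∑ ab ∈ (Finset.HasAntidiagonal.antidiagonal (2 * k + n)).erase (3 * k + 1, 3 * k + 1),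
      φ (q.coeff ab.1) * (x ^ ab.1 * y ^ ab.2) ∈ I := by
    refine Ideal.sum_mem _ fun ab hab => ?_
    rw [Finset.mem_erase, Finset.HasAntidiagonal.mem_antidiagonal] at hab
    obtain ⟨hne, hab⟩ := hab
    by_cases h2 : n ≤ ab.1
    · exact hxI _ _ h2
    · by_cases h3 : n ≤ ab.2
      · exact hyI _ _ h3
      · have h4 : q.coeff ab.1 = 0 := by
          rw [hw ab.1 (by omega) (by omega), if_neg]
          intro h5
          apply hne
          ext
          · exact h5
          · simp only
            omega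
        rw [h4, map_zero, zero_mul]
        exact I.zero_mem
  obtain ⟨u, v, huv⟩ := Ideal.mem_span_pair.1 hrest
  have h5 : q.coeff (3 * k + 1) = 1 := by
    rw [hw (3 * k + 1) (by omega) (by omega), if_pos rfl]
  refine ⟨-u, -v, ψ (w.homogenize (2 * k)), ?_⟩
  rw [← h1, ← huv]
  simp only [h5, map_one]
  ring

end Pool.Agent.H408BCM.TPG
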