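import Pool.Agent.Helper46.L.H408BCM.Stmts
import Pool.Agent.Helper46.L.H408BCM.PG
import Pool.Agent.Helper46.L.H408BCM.TDG

namespace Pool.Agent.H408BCM.MG

open MvPolynomial Filter

/-- elements of a product that vanish along the filter. -/
def nullIdeal {ι : Type} (F : Filter ι) (C : ι → Type) [∀ i, CommRing (C i)] :
    Ideal (∀ i, C i) where
  carrier := {a | ∀ᶠ i in F, a i = 0}
  add_mem' := by
    intro a b ha hb
    filter_upwards [ha, hb] with i h1 h2
    simp [h1, h2]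
  zero_mem' := by
    simp
  smul_mem' := by
    intro c a ha
    filter_upwards [ha] with i h1
    simp [h1]

theorem mem_nullIdeal {ι : Type} (F : Filter ι) (C : ι → Type) [∀ i, CommRing (C i)]
    (a : ∀ i, C i) : a ∈ nullIdeal F C ↔ ∀ᶠ i in F, a i = 0 := Iff.rfl

theorem mk_eq_mk {ι : Type} (F : Filter ι) (C : ι → Type) [∀ i, CommRing (C i)]
    (a b : ∀ i, C i) : (Ideal.Quotient.mk (nullIdeal F C) a = Ideal.Quotient.mk (nullIdeal F C) b)
      ↔ ∀ᶠ i in F, a i = b i := by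
  rw [Ideal.Quotient.eq, mem_nullIdeal]
  constructor
  · intro h
    filter_upwards [h] with i hi
    exact sub_eq_zero.mp hi
  · intro h
    filter_upwards [h] with i hi
    exact sub_eq_zero.mpr hi

theorem goodCharP (k : Type) [Field k] (p : ℕ) [CharP k p] (B : Type) [CommRing B]
    [Algebra (A k) B] (x y : A k) (h : Good (A k) B x y) : CharP B p := by
  obtain ⟨h1, -, h3⟩ := h
  have hnt : (1 : B) ≠ 0 := by
    intro h0
    apply h3
    refine ⟨0, 0, ?_⟩
    simp [h0]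
  have hinj : Function.Injective (algebraMap (A k) B) := by
    rw [injective_iff_map_eq_zero]
    intro f hf
    by_contra hne
    apply hnt
    apply h1 f 1 hne
    rw [Algebra.smul_def, hf, zero_mul]
  exact charP_of_injective_algebraMap hinj p

/-- the membership in `B_p`. -/
theorem memb (m w k p : ℕ) (hp : p.Prime) (hk : w * p = (4 * m + 3) * k + 2 * m + 1)
    (hw : 6 * w < 4 * m + 3) (B : Type) [CommRing B]
    [CharP B p] (x y z : B) (hz : z ^ (4 * m + 3) = x ^ (4 * m + 3) + y ^ (4 * m + 3)) :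
    ∃ u v c : B, (x ^ p) ^ (3 * w) * (y ^ p) ^ (3 * w) =
      u * (x ^ p) ^ (4 * w) + v * (y ^ p) ^ (4 * w) + c * (z ^ p) ^ (4 * w) := by
  have hkp : 6 * k + 2 < p := by
    have h1 : (4 * m + 3) * (6 * k + 2) < (4 * m + 3) * p := by
      have h2 : (6 * w + 1) * p ≤ (4 * m + 3) * p := Nat.mul_le_mul_right p hw
      have h3 : 6 * (w * p) + p ≤ (4 * m + 3) * p := by
        calc 6 * (w * p) + p = (6 * w + 1) * p := by ring
          _ ≤ (4 * m + 3) * p := h2
      have h4 := hp.two_le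
      rw [hk] at h3
      nlinarith
    exact Nat.lt_of_mul_lt_mul_left h1
  obtain ⟨u, v, c, h⟩ := TPG.taskPG k p hp hkp B (x ^ (4 * m + 3)) (y ^ (4 * m + 3))
  refine ⟨x ^ (2 * m + 2) * y ^ (2 * m) * u, x ^ (2 * m) * y ^ (2 * m + 2) * v,
    x ^ (2 * m) * y ^ (2 * m) * z ^ 2 * c, ?_⟩
  rw [← hz] at h
  have e3 : ∀ t : B, (t ^ p) ^ (3 * w) = t ^ (2 * m) * (t ^ (4 * m + 3)) ^ (3 * k + 1) := by
    intro t
    rw [← pow_mul, ← pow_mul, ← pow_add]
    congr 1
    calc p * (3 * w) = 3 * (w * p) := by ring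
      _ = 2 * m + (4 * m + 3) * (3 * k + 1) := by rw [hk]; ring
  have e4 : ∀ t : B, t ^ 2 * (t ^ p) ^ (4 * w) = (t ^ (4 * m + 3)) ^ (4 * k + 2) := by
    intro t
    rw [← pow_mul, ← pow_mul, ← pow_add]
    congr 1
    calc 2 + p * (4 * w) = 2 + 4 * (w * p) := by ring
      _ = (4 * m + 3) * (4 * k + 2) := by rw [hk]; ring
  rw [e3 x, e3 y]
  calc x ^ (2 * m) * (x ^ (4 * m + 3)) ^ (3 * k + 1) *
        (y ^ (2 * m) * (y ^ (4 * m + 3)) ^ (3 * k + 1))
      = x ^ (2 * m) * y ^ (2 * m) *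
        ((x ^ (4 * m + 3)) ^ (3 * k + 1) * (y ^ (4 * m + 3)) ^ (3 * k + 1)) := by ring
    _ = x ^ (2 * m) * y ^ (2 * m) * (u * (x ^ (4 * m + 3)) ^ (4 * k + 2) +
        v * (y ^ (4 * m + 3)) ^ (4 * k + 2) + c * (z ^ (4 * m + 3)) ^ (4 * k + 2)) := by rw [h]
    _ = _ := by
      rw [← e4 x, ← e4 y, ← e4 z]
      ring

section construction

variable {ι : Type} (F : Ultrafilter ι) (k : ι → Type) [∀ i, Field (k i)] (p : ι → ℕ)
  (hp : ∀ i, (p i).Prime) [∀ i, CharP (k i) (p i)]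
  (B : ι → Type) [∀ i, CommRing (B i)] [∀ i, Algebra (A (k i)) (B i)]

/-- constants. -/
noncomputable def kap : (∀ i, k i) →+* (∀ i, B i) :=
  RingHom.pi (fun i => ((algebraMap (A (k i)) (B i)).comp MvPolynomial.C).comp
    (Pi.evalRingHom (fun i => k i) i))

theorem kap_apply (a : ∀ i, k i) (i : ι) :
    kap k B a i = algebraMap (A (k i)) (B i) (MvPolynomial.C (a i)) := rfl

/-- constants in the quotient. -/
noncomputable def kapQ : ((∀ i, k i) ⧸ nullIdeal (F : Filter ι) k) →+*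
    ((∀ i, B i) ⧸ nullIdeal (F : Filter ι) B) :=
  Ideal.quotientMap _ (kap k B) (by
    intro a ha
    rw [Ideal.mem_comap, mem_nullIdeal]
    filter_upwards [(mem_nullIdeal _ _ _).1 ha] with i hi
    rw [kap_apply, hi, map_zero, map_zero])

/-- the images of the variables. -/
noncomputable def gv (j : Fin 2) : (∀ i, B i) ⧸ nullIdeal (F : Filter ι) B :=
  Ideal.Quotient.mk _ (fun i => algebraMap (A (k i)) (B i) (X j ^ p i))

/-- the structure map. -/
noncomputable def str (φ : ℂ →+* ((∀ i, k i) ⧸ nullIdeal (F : Filter ι) k)) :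
    A ℂ →+* ((∀ i, B i) ⧸ nullIdeal (F : Filter ι) B) :=
  MvPolynomial.eval₂Hom ((kapQ F k B).comp φ) (gv F k p B)

/-- lift of a constant. -/
noncomputable def lf (φ : ℂ →+* ((∀ i, k i) ⧸ nullIdeal (F : Filter ι) k)) (c : ℂ) : ∀ i, k i :=
  (Ideal.Quotient.mk_surjective (φ c)).choose

theorem lf_spec (φ : ℂ →+* ((∀ i, k i) ⧸ nullIdeal (F : Filter ι) k)) (c : ℂ) :
    Ideal.Quotient.mk _ (lf F k φ c) = φ c :=
  (Ideal.Quotient.mk_surjective (φ c)).choose_spec

/-- lift of a polynomial. -/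
noncomputable def lp (φ : ℂ →+* ((∀ i, k i) ⧸ nullIdeal (F : Filter ι) k)) (f : A ℂ) (i : ι) :
    A (k i) :=
  ∑ s ∈ f.support, monomial s (lf F k φ (f.coeff s) i)

theorem str_eq (φ : ℂ →+* ((∀ i, k i) ⧸ nullIdeal (F : Filter ι) k)) (f : A ℂ) :
    str F k p B φ f = Ideal.Quotient.mk _
      (fun i => algebraMap (A (k i)) (B i) (expand (p i) (lp F k φ f i))) := by
  have h1 : (fun i => algebraMap (A (k i)) (B i) (expand (p i) (lp F k φ f i))) =
      ∑ s ∈ f.support, (kap k B (lf F k φ (f.coeff s))) *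
        ∏ j : Fin 2, (fun i => algebraMap (A (k i)) (B i) (X j ^ p i)) ^ s j := by
    funext i
    rw [Finset.sum_apply]
    unfold lp
    rw [map_sum, map_sum]
    refine Finset.sum_congr rfl (fun s _ => ?_)
    rw [MvPolynomial.monomial_eq, map_mul, map_mul, Pi.mul_apply, kap_apply,
      MvPolynomial.expand_C, Finset.prod_apply]
    congr 1
    rw [Finsupp.prod_fintype _ _ (fun _ => pow_zero _), map_prod, map_prod]
    refine Finset.prod_congr rfl (fun j _ => ?_)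
    rw [map_pow, map_pow, MvPolynomial.expand_X, Pi.pow_apply]
  rw [h1, map_sum]
  unfold str
  rw [MvPolynomial.coe_eval₂Hom, MvPolynomial.eval₂_eq']
  refine Finset.sum_congr rfl (fun s _ => ?_)
  rw [map_mul, map_prod]
  congr 1
  · rw [RingHom.comp_apply, ← lf_spec F k φ]
    rfl

theorem lp_ne (φ : ℂ →+* ((∀ i, k i) ⧸ nullIdeal (F : Filter ι) k)) (f : A ℂ) (hf : f ≠ 0)
    (hnt : Nontrivial ((∀ i, k i) ⧸ nullIdeal (F : Filter ι) k)) :
    ∀ᶠ i in (F : Filter ι), lp F k φ f i ≠ 0 := by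
  obtain ⟨s, hs⟩ := MvPolynomial.ne_zero_iff.1 hf
  have h1 : φ (f.coeff s) ≠ 0 := by
    rw [Ne, map_eq_zero]
    exact hs
  rw [← lf_spec F k φ] at h1
  have h2 : ¬ ∀ᶠ i in (F : Filter ι), lf F k φ (f.coeff s) i = 0 := by
    intro h
    apply h1
    rw [Ideal.Quotient.eq_zero_iff_mem]
    exact h
  rw [← Ultrafilter.eventually_not] at h2
  filter_upwards [h2] with i hi h0
  apply hi
  have h3 := congrArg (MvPolynomial.coeff s) h0
  rw [MvPolynomial.coeff_zero] at h3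
  rw [← h3]
  unfold lp
  rw [MvPolynomial.coeff_sum]
  rw [Finset.sum_eq_single s]
  · simp
  · intro b _ hb
    simp [MvPolynomial.coeff_monomial, hb]
  · intro h
    exact absurd (MvPolynomial.mem_support_iff.2 hs) h

theorem expand_ne {K : Type} [Field K] (q : ℕ) (hq : 0 < q) (f : A K) (hf : f ≠ 0) :
    expand q f ≠ 0 := by
  obtain ⟨s, hs⟩ := MvPolynomial.ne_zero_iff.1 hf
  intro h0
  apply hs
  have h3 := congrArg (MvPolynomial.coeff (q • s)) h0
  rw [MvPolynomial.coeff_zero] at h3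
  rw [← h3, MvPolynomial.coeff_expand_smul q hq.ne']

theorem goodStr (φ : ℂ →+* ((∀ i, k i) ⧸ nullIdeal (F : Filter ι) k))
    (hnt : Nontrivial ((∀ i, k i) ⧸ nullIdeal (F : Filter ι) k))
    (hp0 : ∀ i, 0 < p i)
    (hB : ∀ i, Good (A (k i)) (B i) (X 0 ^ p i) (X 1 ^ p i)) :
    letI : Algebra (A ℂ) ((∀ i, B i) ⧸ nullIdeal (F : Filter ι) B) := (str F k p B φ).toAlgebra
    Good (A ℂ) ((∀ i, B i) ⧸ nullIdeal (F : Filter ι) B) (X 0) (X 1) := by
  letI : Algebra (A ℂ) ((∀ i, B i) ⧸ nullIdeal (F : Filter ι) B) := (str F k p B φ).toAlgebra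
  have hX : ∀ (j : Fin 2), str F k p B φ (X j) = gv F k p B j := by
    intro j
    unfold str
    rw [MvPolynomial.coe_eval₂Hom, MvPolynomial.eval₂_X]
  refine ⟨?_, ?_, ?_⟩
  · intro f b hf hb
    obtain ⟨b, rfl⟩ := Ideal.Quotient.mk_surjective b
    rw [Algebra.smul_def, RingHom.algebraMap_toAlgebra, str_eq, ← map_mul,
      Ideal.Quotient.eq_zero_iff_mem, mem_nullIdeal] at hb
    rw [Ideal.Quotient.eq_zero_iff_mem, mem_nullIdeal]
    filter_upwards [hb, lp_ne F k φ f hf hnt] with i h1 h2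
    refine (hB i).1 (expand (p i) (lp F k φ f i)) (b i) (expand_ne _ (hp0 i) _ h2) ?_
    rw [Algebra.smul_def]
    exact h1
  · intro b c hbc
    obtain ⟨b, rfl⟩ := Ideal.Quotient.mk_surjective b
    obtain ⟨c, rfl⟩ := Ideal.Quotient.mk_surjective c
    rw [Algebra.smul_def, Algebra.smul_def, RingHom.algebraMap_toAlgebra, hX, hX] at hbc
    unfold gv at hbc
    rw [← map_mul, ← map_mul, mk_eq_mk] at hbc
    have hex : ∀ i, ∃ d : B i, (X 1 ^ p i : A (k i)) • b i = (X 0 ^ p i : A (k i)) • c i →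
        b i = (X 0 ^ p i : A (k i)) • d := by
      intro i
      by_cases h : (X 1 ^ p i : A (k i)) • b i = (X 0 ^ p i : A (k i)) • c i
      · obtain ⟨d, hd⟩ := (hB i).2.1 _ _ h
        exact ⟨d, fun _ => hd⟩
      · exact ⟨0, fun h' => absurd h' h⟩
    choose d hd using hex
    refine ⟨Ideal.Quotient.mk _ d, ?_⟩
    rw [Algebra.smul_def, RingHom.algebraMap_toAlgebra, hX]
    unfold gv
    rw [← map_mul, mk_eq_mk]
    filter_upwards [hbc] with i hi
    rw [Pi.mul_apply, Pi.mul_apply, ← Algebra.smul_def, ← Algebra.smul_def] at hi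
    rw [Pi.mul_apply, ← Algebra.smul_def]
    exact hd i hi
  · rintro ⟨b, c, hbc⟩
    obtain ⟨b, rfl⟩ := Ideal.Quotient.mk_surjective b
    obtain ⟨c, rfl⟩ := Ideal.Quotient.mk_surjective c
    rw [Algebra.smul_def, Algebra.smul_def, RingHom.algebraMap_toAlgebra, hX, hX] at hbc
    unfold gv at hbc
    rw [← map_mul, ← map_mul, ← map_add, ← map_one (Ideal.Quotient.mk _), mk_eq_mk] at hbc
    obtain ⟨i, hi⟩ := hbc.exists
    apply (hB i).2.2
    refine ⟨b i, c i, ?_⟩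
    rw [Algebra.smul_def, Algebra.smul_def]
    exact hi

end construction

theorem primes_inf (m w : ℕ) (hco : Nat.Coprime w (4 * m + 3)) :
    {q : ℕ | q.Prime ∧ ∃ k, w * q = (4 * m + 3) * k + 2 * m + 1}.Infinite := by
  set n : ℕ := 4 * m + 3 with hn
  haveI : NeZero n := ⟨by omega⟩
  have hcop2 : Nat.Coprime (2 * m + 1) n := by
    have h1 : n = 1 + (2 * m + 1) * 2 := by omega
    rw [h1]
    exact (Nat.coprime_add_mul_left_right (2 * m + 1) 1 2).2 (Nat.coprime_one_right _)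
  have hu : IsUnit ((w : ZMod n)) := (ZMod.isUnit_iff_coprime w n).2 hco
  have hu2 : IsUnit (((2 * m + 1 : ℕ) : ZMod n)) := (ZMod.isUnit_iff_coprime _ n).2 hcop2
  obtain ⟨wu, hwu⟩ := hu
  have ha : IsUnit ((2 * m + 1 : ℕ) * (↑wu⁻¹ : ZMod n)) := hu2.mul wu⁻¹.isUnit
  have hinf := Nat.infinite_setOf_prime_and_eq_mod ha
  have hinf2 := hinf.diff (Set.finite_Iic (2 * m + 1))
  refine hinf2.mono ?_
  rintro q ⟨⟨h1, h2⟩, h3⟩
  refine ⟨h1, ?_⟩
  have h4 : ((w * q : ℕ) : ZMod n) = ((2 * m + 1 : ℕ) : ZMod n) := by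
    push_cast
    rw [h2, ← hwu]
    push_cast
    rw [mul_comm, mul_assoc]
    simp
  have h5 := (ZMod.natCast_eq_natCast_iff _ _ _).1 h4
  have hwpos : 1 ≤ w := by
    rcases Nat.eq_zero_or_pos w with h | h
    · rw [h] at hco
      have := (Nat.coprime_zero_left _).1 hco
      omega
    · exact h
  have h6 : 2 * m + 1 ≤ w * q := by
    have h7 : 2 * m + 1 < q := by
      by_contra hcon
      exact h3 (Set.mem_Iic.2 (by omega))
    nlinarith
  have h8 := (Nat.modEq_iff_dvd' h6).1 h5.symm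
  obtain ⟨k, hk⟩ := h8
  refine ⟨k, ?_⟩
  omega

theorem taskMG (hU : TaskU) (m w : ℕ) (hw : 6 * w < 4 * m + 3) (hco : Nat.Coprime w (4 * m + 3)) :
    ∃ (B : Type) (_ : CommRing B) (_ : Algebra (A ℂ) B), Good (A ℂ) B (X 0) (X 1) ∧
      ∃ z a b c : B, z ^ (4 * m + 3) =
          algebraMap (A ℂ) B (X 0 ^ (4 * m + 3) + X 1 ^ (4 * m + 3)) ∧
        algebraMap (A ℂ) B (X 0 ^ (3 * w) * X 1 ^ (3 * w)) =
          a * algebraMap (A ℂ) B (X 0 ^ (4 * w)) + b * algebraMap (A ℂ) B (X 1 ^ (4 * w)) +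
            c * z ^ (4 * w) := by
  set P : Set ℕ := {q : ℕ | q.Prime ∧ ∃ k, w * q = (4 * m + 3) * k + 2 * m + 1} with hPdef
  have hPinf : P.Infinite := primes_inf m w hco
  haveI : Infinite P := hPinf.to_subtype
  have hpr : ∀ i : P, (i : ℕ).Prime := fun i => i.2.1
  haveI : ∀ i : P, Fact ((i : ℕ).Prime) := fun i => ⟨i.2.1⟩
  set k : P → Type := fun i => AlgebraicClosure (ZMod (i : ℕ)) with hk
  set F : Ultrafilter P := hyperfilter P with hF
  letI : ∀ i, Field (k i) := fun i => inferInstanceAs (Field (AlgebraicClosure (ZMod (i : ℕ))))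
  haveI : ∀ i, IsAlgClosed (k i) := fun i =>
    inferInstanceAs (IsAlgClosed (AlgebraicClosure (ZMod (i : ℕ))))
  haveI : ∀ i, CharP (k i) (i : ℕ) := fun i =>
    inferInstanceAs (CharP (AlgebraicClosure (ZMod (i : ℕ))) (i : ℕ))
  have hcount : ∀ i, Countable (k i) := by
    intro i
    have h1 : Cardinal.mk (k i) ≤ max (Cardinal.mk (ZMod (i : ℕ))) Cardinal.aleph0 :=
      Algebra.IsAlgebraic.cardinalMk_le_max (ZMod (i : ℕ)) (AlgebraicClosure (ZMod (i : ℕ)))
    rw [← Cardinal.mk_le_aleph0_iff]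
    refine h1.trans (max_le ?_ le_rfl)
    haveI : NeZero (i : ℕ) := ⟨(hpr i).ne_zero⟩
    exact Cardinal.mk_le_aleph0
  obtain ⟨φ⟩ := hU P hPinf (fun q hq => hq.1) F hyperfilter_le_cofinite k hcount
    (nullIdeal (F : Filter P) k) (fun a => Iff.rfl)
  choose B hB1 hB2 z hz hgood using fun i : P => TDG.taskDG (k i) (4 * m + 3) (i : ℕ) (by omega) (hpr i).pos
  letI := hB1
  letI := hB2
  have hnt : Nontrivial ((∀ i, k i) ⧸ nullIdeal (F : Filter P) k) := by
    refine ⟨⟨1, 0, ?_⟩⟩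
    intro h0
    rw [← map_one (Ideal.Quotient.mk _), ← map_zero (Ideal.Quotient.mk _), mk_eq_mk] at h0
    obtain ⟨i, hi⟩ := h0.exists
    exact one_ne_zero hi
  have hG := goodStr F k (fun i => (i : ℕ)) B φ hnt (fun i => (hpr i).pos) hgood
  refine ⟨(∀ i, B i) ⧸ nullIdeal (F : Filter P) B, inferInstance,
    (str F k (fun i => (i : ℕ)) B φ).toAlgebra, hG, ?_⟩
  letI : Algebra (A ℂ) ((∀ i, B i) ⧸ nullIdeal (F : Filter P) B) :=
    (str F k (fun i => (i : ℕ)) B φ).toAlgebra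
  have hX : ∀ (j : Fin 2), algebraMap (A ℂ) ((∀ i, B i) ⧸ nullIdeal (F : Filter P) B) (X j) =
      Ideal.Quotient.mk _ (fun i => (algebraMap (A (k i)) (B i) (X j)) ^ (i : ℕ)) := by
    intro j
    rw [RingHom.algebraMap_toAlgebra]
    unfold str
    rw [MvPolynomial.coe_eval₂Hom, MvPolynomial.eval₂_X]
    unfold gv
    congr 1
    funext i
    rw [map_pow]
  have hz' : ∀ i, z i ^ (4 * m + 3) = (algebraMap (A (k i)) (B i) (X 0)) ^ (4 * m + 3) +
      (algebraMap (A (k i)) (B i) (X 1)) ^ (4 * m + 3) := by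
    intro i
    rw [hz i, map_add, map_pow, map_pow]
  haveI hch : ∀ i, CharP (B i) (i : ℕ) := fun i => goodCharP (k i) (i : ℕ) (B i) _ _ (hgood i)
  have hmem : ∀ i : P, ∃ u v cc : B i,
      ((algebraMap (A (k i)) (B i) (X 0)) ^ (i : ℕ)) ^ (3 * w) *
        ((algebraMap (A (k i)) (B i) (X 1)) ^ (i : ℕ)) ^ (3 * w) =
      u * ((algebraMap (A (k i)) (B i) (X 0)) ^ (i : ℕ)) ^ (4 * w) +
        v * ((algebraMap (A (k i)) (B i) (X 1)) ^ (i : ℕ)) ^ (4 * w) + cc * (z i ^ (i : ℕ)) ^ (4 * w) := by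
    intro i
    obtain ⟨kk, hkk⟩ := i.2.2
    exact memb m w kk (i : ℕ) (hpr i) hkk hw (B i) _ _ (z i) (hz' i)
  choose u v cc huvw using hmem
  refine ⟨Ideal.Quotient.mk _ (fun i => z i ^ (i : ℕ)), Ideal.Quotient.mk _ u,
    Ideal.Quotient.mk _ v, Ideal.Quotient.mk _ cc, ?_, ?_⟩
  · rw [map_add, map_pow, map_pow, hX, hX, ← map_pow, ← map_pow, ← map_pow, ← map_add]
    congr 1
    funext i
    haveI := hch i
    haveI : Fact ((i : ℕ).Prime) := ⟨hpr i⟩
    show (z i ^ (i : ℕ)) ^ (4 * m + 3) = ((algebraMap (A (k i)) (B i) (X 0)) ^ (i : ℕ)) ^ (4 * m + 3) +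
      ((algebraMap (A (k i)) (B i) (X 1)) ^ (i : ℕ)) ^ (4 * m + 3)
    rw [← pow_mul, mul_comm, pow_mul, hz' i, add_pow_char, ← pow_mul, ← pow_mul, ← pow_mul,
      ← pow_mul, mul_comm (4 * m + 3)]
  · rw [map_mul, map_pow, map_pow, map_pow, map_pow, hX, hX]
    rw [← map_pow, ← map_pow, ← map_pow, ← map_pow, ← map_pow, ← map_mul, ← map_mul, ← map_mul,
      ← map_mul, ← map_add, ← map_add]
    congr 1
    funext i
    exact huvw i

end Pool.Agent.H408BCM.MG
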