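import Pool.Agent.Helper46.L.H408BCM.Stmts

set_option autoImplicit false

namespace Pool.Agent.H408BCM

open RingTheory.Sequence
open scoped Pointwise

theorem taskC : TaskC := by
  intro R B _ _ _ f g
  rw [isRegular_iff, isWeaklyRegular_cons_iff, isWeaklyRegular_singleton_iff,
    isSMulRegular_iff_right_eq_zero_of_smul]
  have h2 : IsSMulRegular (QuotSMulTop f B) g ↔ (∀ b c : B, g • b = f • c → ∃ d : B, b = f • d) := by
    unfold QuotSMulTop
    rw [isSMulRegular_quotient_iff_mem_of_smul_mem]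
    constructor
    · intro h b c hbc
      have h1 := h b (by
        rw [Submodule.mem_smul_pointwise_iff_exists]
        exact ⟨c, Submodule.mem_top, hbc.symm⟩)
      rw [Submodule.mem_smul_pointwise_iff_exists] at h1
      obtain ⟨d, -, hd⟩ := h1
      exact ⟨d, hd.symm⟩
    · intro h b hb
      rw [Submodule.mem_smul_pointwise_iff_exists] at hb ⊢
      obtain ⟨c, -, hc⟩ := hb
      obtain ⟨d, hd⟩ := h b c hc.symm
      exact ⟨d, Submodule.mem_top, hd.symm⟩
  have h3 : ((⊤ : Submodule R B) ≠ Ideal.ofList [f, g] • (⊤ : Submodule R B)) ↔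
      ¬ ∃ b c : B, (1 : B) = f • b + g • c := by
    rw [Ideal.ofList_cons_smul, Ideal.ofList_singleton, Submodule.ideal_span_singleton_smul]
    refine not_congr ⟨fun h => ?_, fun h => ?_⟩
    · have h1 : (1 : B) ∈ f • (⊤ : Submodule R B) ⊔ g • (⊤ : Submodule R B) := by
        rw [← h]; exact Submodule.mem_top
      rw [Submodule.mem_sup] at h1
      obtain ⟨y, hy, z, hz, hyz⟩ := h1
      rw [Submodule.mem_smul_pointwise_iff_exists] at hy hz
      obtain ⟨b, -, rfl⟩ := hy
      obtain ⟨c, -, rfl⟩ := hz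
      exact ⟨b, c, hyz.symm⟩
    · obtain ⟨b, c, h1⟩ := h
      symm
      rw [eq_top_iff]
      intro x _
      rw [Submodule.mem_sup]
      refine ⟨f • (b * x), ?_, g • (c * x), ?_, ?_⟩
      · rw [Submodule.mem_smul_pointwise_iff_exists]
        exact ⟨_, Submodule.mem_top, rfl⟩
      · rw [Submodule.mem_smul_pointwise_iff_exists]
        exact ⟨_, Submodule.mem_top, rfl⟩
      · rw [← smul_mul_assoc, ← smul_mul_assoc, ← add_mul, ← h1, one_mul]
  rw [h2, h3, and_assoc]

end Pool.Agent.H408BCM
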