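import Pool.Agent.Helper46.L.H408BCM.Stmts

/-!
# BCM408: `TaskL`, localization of a good `k[x,y]`-algebra
-/

namespace Pool.Agent.H408BCM

open MvPolynomial

theorem exists_decomp {k : Type} [Field k] (t : A k) :
    ∃ p q : A k, t = C (constantCoeff t) + X 0 * p + X 1 * q := by
  induction t using MvPolynomial.induction_on with
  | C a => exact ⟨0, 0, by simp⟩
  | add f g hf hg =>
    obtain ⟨p, q, h⟩ := hf
    obtain ⟨p', q', h'⟩ := hg
    refine ⟨p + p', q + q', ?_⟩
    rw [map_add, map_add]
    linear_combination h + h'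
  | mul_X f i _ =>
    fin_cases i
    · refine ⟨f, 0, ?_⟩
      simp [mul_comm]
    · refine ⟨0, f, ?_⟩
      simp [mul_comm]

theorem taskL : TaskL := by
  intro k _ B _ _ hgood
  obtain ⟨h1, h2, h3⟩ := hgood
  have hunit : ∀ s ∈ (mA k).primeCompl, IsUnit (algebraMap B
      (Localization (Algebra.algebraMapSubmonoid B (mA k).primeCompl)) (algebraMap (A k) B s)) :=
    fun s hs => IsLocalization.map_units _
      (⟨algebraMap (A k) B s, Algebra.mem_algebraMapSubmonoid_of_mem ⟨s, hs⟩⟩ :
        Algebra.algebraMapSubmonoid B (mA k).primeCompl)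
  have hsurj : ∀ b' : Localization (Algebra.algebraMapSubmonoid B (mA k).primeCompl),
      ∃ (b : B) (s : A k), s ∈ (mA k).primeCompl ∧
        b' * algebraMap B _ (algebraMap (A k) B s) = algebraMap B _ b := by
    intro b'
    obtain ⟨⟨b, ⟨_, s, hs, rfl⟩⟩, hb⟩ :=
      IsLocalization.surj (Algebra.algebraMapSubmonoid B (mA k).primeCompl) b'
    exact ⟨b, s, hs, hb⟩
  have hne : ∀ s ∈ (mA k).primeCompl, s ≠ 0 := by
    rintro s hs rfl
    exact hs (Ideal.zero_mem _)
  have hinj : Function.Injective (algebraMap B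
      (Localization (Algebra.algebraMapSubmonoid B (mA k).primeCompl))) := by
    intro b c hbc
    obtain ⟨⟨_, s, hs, rfl⟩, hu⟩ := (IsLocalization.eq_iff_exists
      (Algebra.algebraMapSubmonoid B (mA k).primeCompl) _).1 hbc
    rw [← sub_eq_zero]
    refine h1 s _ (hne s hs) ?_
    rw [Algebra.smul_def, mul_sub, sub_eq_zero]
    exact hu
  have hcomm : ∀ f : A k, algebraMap B
      (Localization (Algebra.algebraMapSubmonoid B (mA k).primeCompl)) (algebraMap (A k) B f) =
      algebraMap (R k) _ (algebraMap (A k) (R k) f) := by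
    intro f
    rw [← IsScalarTower.algebraMap_apply, ← IsScalarTower.algebraMap_apply]
  refine ⟨Localization (Algebra.algebraMapSubmonoid B (mA k).primeCompl), inferInstance,
    inferInstance, algebraMap B _, hcomm, ?_, ?_, ?_⟩
  · intro f b' hf hfb
    obtain ⟨⟨a, s, hs⟩, ha⟩ := IsLocalization.surj (mA k).primeCompl f
    obtain ⟨b, t, ht, hb⟩ := hsurj b'
    have ha0 : a ≠ 0 := by
      rintro rfl
      apply hf
      simp only [map_zero] at ha
      exact ((IsLocalization.map_units (R k) (⟨s, hs⟩ : (mA k).primeCompl)).mul_left_eq_zero).1 ha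
    have key : algebraMap (A k) B a * b = 0 := by
      apply hinj
      rw [map_mul, map_zero, hcomm, ← hb]
      simp only at ha
      rw [← ha, map_mul]
      rw [Algebra.smul_def] at hfb
      linear_combination (algebraMap (R k) _ (algebraMap (A k) (R k) s) *
        algebraMap B (Localization (Algebra.algebraMapSubmonoid B (mA k).primeCompl))
          (algebraMap (A k) B t)) * hfb
    have hb0 : b = 0 := h1 a b ha0 (by rw [Algebra.smul_def, key])
    rw [hb0, map_zero] at hb
    exact ((hunit t ht).mul_left_eq_zero).1 hb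
  · intro b' c' hbc
    obtain ⟨b, s, hs, hb⟩ := hsurj b'
    obtain ⟨c, t, ht, hc⟩ := hsurj c'
    rw [Algebra.smul_def, Algebra.smul_def, ← hcomm, ← hcomm] at hbc
    obtain ⟨d, hd⟩ := h2 (algebraMap (A k) B t * b) (algebraMap (A k) B s * c) (by
      rw [Algebra.smul_def, Algebra.smul_def]
      apply hinj
      rw [map_mul, map_mul, map_mul, map_mul, ← hb, ← hc]
      linear_combination (algebraMap B
        (Localization (Algebra.algebraMapSubmonoid B (mA k).primeCompl))
          (algebraMap (A k) B t) * algebraMap B _ (algebraMap (A k) B s)) * hbc)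
    rw [Algebra.smul_def] at hd
    have hd' := congrArg (algebraMap B
        (Localization (Algebra.algebraMapSubmonoid B (mA k).primeCompl))) hd
    rw [map_mul, map_mul, ← hb] at hd'
    obtain ⟨us, hus⟩ := hunit s hs
    obtain ⟨ut, hut⟩ := hunit t ht
    refine ⟨algebraMap B _ d * (↑us⁻¹ * ↑ut⁻¹), ?_⟩
    rw [Algebra.smul_def, ← hcomm, ← mul_assoc, ← hd', ← hus, ← hut]
    have e1 : (us : Localization (Algebra.algebraMapSubmonoid B (mA k).primeCompl)) * ↑us⁻¹ = 1 :=
      us.mul_inv
    have e2 : (ut : Localization (Algebra.algebraMapSubmonoid B (mA k).primeCompl)) * ↑ut⁻¹ = 1 :=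
      ut.mul_inv
    linear_combination (-b' * ut * ↑ut⁻¹) * e1 - b' * e2
  · rintro ⟨b', c', hbc⟩
    obtain ⟨b, s, hs, hb⟩ := hsurj b'
    obtain ⟨c, t, ht, hc⟩ := hsurj c'
    rw [Algebra.smul_def, Algebra.smul_def, ← hcomm, ← hcomm] at hbc
    have key : algebraMap (A k) B (s * t) = algebraMap (A k) B (X 0) * (algebraMap (A k) B t * b) +
        algebraMap (A k) B (X 1) * (algebraMap (A k) B s * c) := by
      apply hinj
      rw [map_mul, map_mul, map_add, map_mul, map_mul, map_mul, map_mul, ← hb, ← hc]
      linear_combination (algebraMap B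
        (Localization (Algebra.algebraMapSubmonoid B (mA k).primeCompl))
          (algebraMap (A k) B t) * algebraMap B _ (algebraMap (A k) B s)) * hbc
    have hst : s * t ∈ (mA k).primeCompl := Submonoid.mul_mem _ hs ht
    have hu : constantCoeff (s * t) ≠ 0 := fun h => hst ((RingHom.mem_ker).2 h)
    obtain ⟨p, q, hpq⟩ := exists_decomp (s * t)
    set u := constantCoeff (s * t) with hudef
    apply h3
    refine ⟨algebraMap (A k) B (C u⁻¹) * (algebraMap (A k) B t * b - algebraMap (A k) B p),
      algebraMap (A k) B (C u⁻¹) * (algebraMap (A k) B s * c - algebraMap (A k) B q), ?_⟩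
    have e1 : algebraMap (A k) B (C u⁻¹) * algebraMap (A k) B (C u) = 1 := by
      rw [← map_mul, ← map_mul, inv_mul_cancel₀ hu, map_one, map_one]
    have e2 := congrArg (algebraMap (A k) B) hpq
    rw [map_add, map_add, map_mul (algebraMap (A k) B) (X 0), map_mul (algebraMap (A k) B) (X 1)]
      at e2
    rw [Algebra.smul_def, Algebra.smul_def]
    linear_combination (-1 : B) * e1 - algebraMap (A k) B (C u⁻¹) * e2 +
      algebraMap (A k) B (C u⁻¹) * key

end Pool.Agent.H408BCM
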